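import Pool.Agent.W769.Ent.Sphere

set_option autoImplicit false

/-!
# Families of tubes whose positions are a Sobolev function of the direction

`‖a i - a j‖ ≤ (g i + g j) ‖e i - e j‖` with `g` in weak `L^p`: the entropy of the multiplicity.
-/

open MeasureTheory Set Finset
open scoped ENNReal InnerProductSpace

namespace Pool.Agent.Q184.SF

open Pool.Agent.W769.Ent Pool.Agent.W769.Iso

variable {d : ℕ}

/-- Upper bound for the volume of a tube. -/
theorem volume_tube_le {δ : ℝ} {e a : Eu d} (hδ : 0 < δ) (he : ‖e‖ = 1) :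
    volume (tube δ e a) ≤ ENNReal.ofReal ((2 * δ) ^ d) := by
  have hon : Orthonormal ℝ (({0} : Set (Fin (d + 1))).domRestrict (fun _ => e)) := by
    rw [orthonormal_iff_ite]
    rintro ⟨i, hi⟩ ⟨j, hj⟩
    simp only [mem_singleton_iff] at hi hj
    subst hi; subst hj
    change (inner ℝ e e : ℝ) = _
    rw [real_inner_self_eq_norm_sq, he]
    simp
  obtain ⟨b, hb⟩ := hon.exists_orthonormalBasis_extension_of_card_eq (by simp)
  have hb0 : b 0 = e := hb 0 rfl
  set r : Fin (d + 1) → ℝ := Fin.cons (1 / 2) (fun _ => δ) with hr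
  set B : Set (Fin (d + 1) → ℝ) := Set.pi univ (fun i => Icc (-(r i)) (r i)) with hB
  have hBm : MeasurableSet B := MeasurableSet.univ_pi (fun i => measurableSet_Icc)
  have hvolB : volume B = ENNReal.ofReal ((2 * δ) ^ d) := by
    rw [hB, volume_pi_pi]
    simp only [Real.volume_Icc]
    rw [Fin.prod_univ_succ]
    simp only [hr, Fin.cons_zero, Fin.cons_succ, Finset.prod_const, Finset.card_univ,
      Fintype.card_fin]
    have hnn : 0 ≤ δ - -δ := by linarith
    rw [← ENNReal.ofReal_pow hnn, ← ENNReal.ofReal_mul (by norm_num)]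
    congr 1
    norm_num
    congr 1
    ring
  have hmp : MeasurePreserving (fun y : Eu d => (b.repr (y - a)).ofLp) volume volume := by
    have h1 : MeasurePreserving (fun y : Eu d => y - a) volume volume :=
      measurePreserving_sub_right volume a
    have h2 := b.measurePreserving_repr
    have h3 := PiLp.volume_preserving_ofLp (Fin (d + 1))
    exact h3.comp (h2.comp h1)
  rw [← hvolB, ← hmp.measure_preimage hBm.nullMeasurableSet]
  apply measure_mono
  rintro y ⟨h1, h2⟩
  simp only [Set.mem_preimage, hB, Set.mem_univ_pi, Set.mem_Icc]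
  set v := y - a with hv
  have hv0 : (inner ℝ v e : ℝ) = b.repr v 0 := by
    rw [b.repr_apply_apply, hb0, real_inner_comm]
  intro i
  rw [← abs_le]
  refine Fin.cases ?_ (fun k => ?_) i
  · simp only [hr, Fin.cons_zero]
    rw [← hv0]
    exact h1
  · simp only [hr, Fin.cons_succ]
    have h3 : (b.repr v (Fin.succ k)) = inner ℝ (b k.succ) (v - (inner ℝ v e : ℝ) • e) := by
      have h5 : (inner ℝ (b k.succ) e : ℝ) = 0 := by
        rw [← hb0]
        exact b.orthonormal.2 (Fin.succ_ne_zero k)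
      rw [b.repr_apply_apply, inner_sub_right (b k.succ) v, inner_smul_right, h5]
      ring
    rw [h3]
    have h4 := abs_real_inner_le_norm (b k.succ) (v - (inner ℝ v e : ℝ) • e)
    rw [b.orthonormal.1 k.succ, one_mul] at h4
    exact h4.trans h2

/-- A crude bound for the number of separated directions. -/
theorem card_sep {ι : Type} [Fintype ι] {e : ι → Eu d} {δ : ℝ} (hδ : 0 < δ) (hδ1 : δ ≤ 1)
    (he : ∀ i, ‖e i‖ = 1) (hsep : ∀ i j, i ≠ j → δ ≤ ‖e i - e j‖) :
    (Fintype.card ι : ℝ) ≤ (4 / δ) ^ (d + 1) := by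
  have hdisj : Pairwise (Function.onFun Disjoint fun i => Metric.ball (e i) (δ / 2)) := by
    intro i j hij
    apply Metric.ball_disjoint_ball
    rw [dist_eq_norm]
    have := hsep i j hij
    linarith
  have h1 : ∑ i, volume (Metric.ball (e i) (δ / 2)) ≤ volume (Metric.ball (0 : Eu d) 2) := by
    rw [← tsum_fintype (L := .unconditional _), ← measure_iUnion hdisj fun _ => measurableSet_ball]
    apply measure_mono
    apply iUnion_subset
    intro i y hy
    rw [Metric.mem_ball, dist_eq_norm] at hy ⊢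
    rw [sub_zero]
    calc ‖y‖ = ‖(y - e i) + e i‖ := by rw [sub_add_cancel]
      _ ≤ ‖y - e i‖ + ‖e i‖ := norm_add_le _ _
      _ < 2 := by rw [he i]; linarith
  have h2 : ∀ i, volume (Metric.ball (e i) (δ / 2)) =
      ENNReal.ofReal ((δ / 2) ^ (d + 1)) * volume (Metric.ball (0 : Eu d) 1) := by
    intro i
    rw [Measure.addHaar_ball volume (e i) (by positivity), finrank_euclideanSpace_fin]
  have h3 : volume (Metric.ball (0 : Eu d) 2) =
      ENNReal.ofReal (2 ^ (d + 1)) * volume (Metric.ball (0 : Eu d) 1) := by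
    rw [Measure.addHaar_ball volume (0 : Eu d) (by norm_num), finrank_euclideanSpace_fin]
  have hV0 : volume (Metric.ball (0 : Eu d) 1) ≠ 0 := (Metric.measure_ball_pos _ _ one_pos).ne'
  have hVt : volume (Metric.ball (0 : Eu d) 1) ≠ ∞ := measure_ball_lt_top.ne
  simp_rw [h2] at h1
  rw [Finset.sum_const, Finset.card_univ, nsmul_eq_mul, h3, ← mul_assoc,
    ENNReal.mul_le_mul_iff_left hV0 hVt] at h1
  rw [← ENNReal.ofReal_natCast, ← ENNReal.ofReal_mul (by positivity),
    ENNReal.ofReal_le_ofReal_iff (by positivity)] at h1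
  rw [div_pow, le_div_iff₀ (by positivity)]
  calc (Fintype.card ι : ℝ) * δ ^ (d + 1)
      = (Fintype.card ι : ℝ) * (δ / 2) ^ (d + 1) * 2 ^ (d + 1) := by
        rw [div_pow]; field_simp
    _ ≤ 2 ^ (d + 1) * 2 ^ (d + 1) := by gcongr
    _ = 4 ^ (d + 1) := by rw [← mul_pow]; norm_num

/-- The trivial entropy bound. -/
theorem trivial_bound {ι : Type} [Fintype ι] {e a : ι → Eu d} {δ : ℝ} (hδ : 0 < δ) (hδ1 : δ ≤ 1)
    (he : ∀ i, ‖e i‖ = 1) (hsep : ∀ i j, i ≠ j → δ ≤ ‖e i - e j‖) :
    ∫⁻ y, ENNReal.ofReal (Ph (Nt e a δ y)) ≤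
      ENNReal.ofReal ((2 * d + 3) * (1 + Real.log (1 / δ)) * (2 ^ d * (δ ^ d * Fintype.card ι))) := by
  have hlogδ : 0 ≤ Real.log (1 / δ) := Real.log_nonneg (by rw [le_div_iff₀ hδ]; linarith)
  set ℓ : ℝ := 1 + Real.log (1 / δ) with hℓ
  have hℓ1 : 1 ≤ ℓ := by linarith
  have hcard := card_sep hδ hδ1 he hsep
  have hNle : ∀ y, Nt e a δ y ≤ Fintype.card ι := by
    intro y
    unfold Nt
    calc ∑ i, (tube δ (e i) (a i)).indicator (fun _ => (1 : ℝ)) y ≤ ∑ _i : ι, (1 : ℝ) := by
          refine Finset.sum_le_sum fun i _ => ?_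
          exact Set.indicator_le_self' (fun _ _ => zero_le_one) y
      _ = _ := by simp
  have hlog4 : Real.log (4 / δ) ≤ 2 * ℓ := by
    have h1 : (4 : ℝ) / δ = 4 * (1 / δ) := by ring
    rw [h1, Real.log_mul (by norm_num) (by positivity)]
    have h2 : Real.log 4 ≤ 2 := by
      have : Real.log 4 = 2 * Real.log 2 := by
        rw [show (4 : ℝ) = 2 ^ 2 by norm_num, Real.log_pow]; norm_num
      rw [this]
      have := Real.log_two_lt_d9
      linarith
    rw [hℓ]
    linarith
  have hpt : ∀ y, Ph (Nt e a δ y) ≤ (2 * d + 3) * ℓ * Nt e a δ y := by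
    intro y
    have h0 := Nt_nonneg e a δ y
    have h1 : Real.posLog (Nt e a δ y) ≤ (2 * d + 2) * ℓ := by
      have h2 : Real.posLog (Nt e a δ y) ≤ Real.posLog ((4 / δ) ^ (d + 1)) :=
        Real.posLog_le_posLog h0 ((hNle y).trans hcard)
      have h3 : (1 : ℝ) ≤ (4 / δ) ^ (d + 1) := one_le_pow₀ (by rw [le_div_iff₀ hδ]; linarith)
      rw [Real.posLog_eq_log (x := (4 / δ) ^ (d + 1)) (by rw [abs_of_nonneg (by positivity)]; exact h3),
        Real.log_pow] at h2
      refine h2.trans ?_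
      push_cast
      nlinarith [show (0 : ℝ) ≤ d by positivity]
    unfold Ph
    have h4 : 1 + Real.posLog (Nt e a δ y) ≤ (2 * d + 3) * ℓ := by nlinarith
    calc Nt e a δ y * (1 + Real.posLog (Nt e a δ y)) ≤ Nt e a δ y * ((2 * d + 3) * ℓ) := by gcongr
      _ = _ := by ring
  have hint : ∫⁻ y, ENNReal.ofReal (Nt e a δ y) ≤
      ENNReal.ofReal (2 ^ d * (δ ^ d * Fintype.card ι)) := by
    have h3 : ∀ y, ENNReal.ofReal (Nt e a δ y) =
        ∑ i, (tube δ (e i) (a i)).indicator (fun _ => (1 : ℝ≥0∞)) y := by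
      intro y
      unfold Nt
      rw [ENNReal.ofReal_sum_of_nonneg fun i _ => Set.indicator_nonneg (fun _ _ => zero_le_one) _]
      refine Finset.sum_congr rfl fun i _ => ?_
      by_cases hy : y ∈ tube δ (e i) (a i)
      · rw [Set.indicator_of_mem hy, Set.indicator_of_mem hy, ENNReal.ofReal_one]
      · rw [Set.indicator_of_notMem hy, Set.indicator_of_notMem hy, ENNReal.ofReal_zero]
    simp_rw [h3]
    rw [lintegral_finsetSum _ fun i _ =>
      measurable_const.indicator (isClosed_tube δ (e i) (a i)).measurableSet]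
    calc ∑ i, ∫⁻ y, (tube δ (e i) (a i)).indicator (fun _ => (1 : ℝ≥0∞)) y
        = ∑ i, volume (tube δ (e i) (a i)) := by
          refine Finset.sum_congr rfl fun i _ => ?_
          rw [lintegral_indicator (isClosed_tube δ (e i) (a i)).measurableSet, setLIntegral_const,
            one_mul]
      _ ≤ ∑ _i : ι, ENNReal.ofReal ((2 * δ) ^ d) :=
          Finset.sum_le_sum fun i _ => volume_tube_le hδ (he i)
      _ = ENNReal.ofReal (2 ^ d * (δ ^ d * Fintype.card ι)) := by
          rw [Finset.sum_const, Finset.card_univ, nsmul_eq_mul, ← ENNReal.ofReal_natCast,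
            ← ENNReal.ofReal_mul (by positivity)]
          congr 1
          rw [mul_pow]; ring
  calc ∫⁻ y, ENNReal.ofReal (Ph (Nt e a δ y))
      ≤ ∫⁻ y, ENNReal.ofReal ((2 * d + 3) * ℓ) * ENNReal.ofReal (Nt e a δ y) := by
        refine lintegral_mono fun y => ?_
        rw [← ENNReal.ofReal_mul (by positivity)]
        exact ENNReal.ofReal_le_ofReal (hpt y)
    _ = ENNReal.ofReal ((2 * d + 3) * ℓ) * ∫⁻ y, ENNReal.ofReal (Nt e a δ y) :=
        lintegral_const_mul' _ _ ENNReal.ofReal_ne_top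
    _ ≤ ENNReal.ofReal ((2 * d + 3) * ℓ) * ENNReal.ofReal (2 ^ d * (δ ^ d * Fintype.card ι)) := by
        gcongr
    _ = _ := by rw [← ENNReal.ofReal_mul (by positivity)]

end Pool.Agent.Q184.SF
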