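import Pool.Agent.Q184.SF.Core

set_option autoImplicit false

/-!
# The entropy of the multiplicity of a Sobolev family of tubes
-/

open MeasureTheory Set Finset
open scoped ENNReal InnerProductSpace

namespace Pool.Agent.Q184.SF

open Pool.Agent.W769.Ent Pool.Agent.W769.Iso

variable {d : ℕ}

theorem Ph_add_le {x y : ℝ} (hx : 0 ≤ x) (hy : 0 ≤ y) : Ph (x + y) ≤ 4 * (Ph x + Ph y) := by
  rcases le_total x y with h | h
  · calc Ph (x + y) ≤ Ph (2 * y) := Ph_mono (by positivity) (by linarith)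
      _ ≤ 2 ^ 2 * Ph y := Ph_mul_le (by norm_num) hy
      _ ≤ _ := by nlinarith [Ph_nonneg hx]
  · calc Ph (x + y) ≤ Ph (2 * x) := Ph_mono (by positivity) (by linarith)
      _ ≤ 2 ^ 2 * Ph x := Ph_mul_le (by norm_num) hx
      _ ≤ _ := by nlinarith [Ph_nonneg hy]

open Classical in
/-- splitting a family -/
theorem Nt_split {ι : Type} [Fintype ι] (e a : ι → Eu d) (δ : ℝ) (P : ι → Prop) (y : Eu d) :
    Nt e a δ y = Nt (fun i : {i // P i} => e i.1) (fun i => a i.1) δ y +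
      Nt (fun i : {i // ¬ P i} => e i.1) (fun i => a i.1) δ y := by
  unfold Nt
  rw [← Finset.sum_filter_add_sum_filter_not Finset.univ P]
  congr 1
  · exact Finset.sum_subtype _ (fun x => by simp)
        (fun i => (tube δ (e i) (a i)).indicator (fun _ => (1 : ℝ)) y)
  · exact Finset.sum_subtype _ (fun x => by simp)
        (fun i => (tube δ (e i) (a i)).indicator (fun _ => (1 : ℝ)) y)

/-- the exponent of the logarithm, `n = d + 1` -/
noncomputable def kap (d : ℕ) (p : ℝ) : ℝ :=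
  p / ((2 * (d : ℝ) ^ 2 + 2 * d + 1) * (p + (2 * d * (d + 2) + 1)))

open Classical in
/-- **The entropy of the multiplicity function of a Sobolev family.** -/
theorem main (hd : 1 ≤ d) : ∃ C : ℝ, 0 < C ∧ ∀ (ι : Type) [Fintype ι]
    (e a : ι → Eu d) (g : ι → ℝ) (p G δ : ℝ), 0 < p → 0 ≤ G → 0 < δ → δ ≤ 1 →
    (∀ i, ‖e i‖ = 1) → (∀ i j, i ≠ j → δ ≤ ‖e i - e j‖) →
    (∀ i j, ‖a i - a j‖ ≤ (g i + g j) * ‖e i - e j‖) →
    (∀ l : ℝ, 0 < l → δ ^ d * Fintype.card {i // l < g i} ≤ (G / l) ^ p) →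
    ∫⁻ y, ENNReal.ofReal (Ph (Nt e a δ y)) ≤
      ENNReal.ofReal (C * ((1 + G) ^ (2 * d * (d + 2) + 1) *
        (1 + Real.log (1 / δ)) ^ (1 - kap d p))) := by
  obtain ⟨C1, hC1, hs⟩ := sphere_all hd
  set K : ℕ := 2 * d * (d + 2) + 1 with hK
  refine ⟨4 * (C1 * 3 ^ K + (2 * d + 3) * 2 ^ d), by positivity, ?_⟩
  intro ι _ e a g p G δ hp hG hδ hδ1 he hsep hhaj hweak
  have hlogδ : 0 ≤ Real.log (1 / δ) := Real.log_nonneg (by rw [le_div_iff₀ hδ]; linarith)
  set ℓ : ℝ := 1 + Real.log (1 / δ) with hℓ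
  have hℓ1 : 1 ≤ ℓ := by linarith
  have hℓ0 : 0 < ℓ := by linarith
  set D : ℝ := 2 * (d : ℝ) ^ 2 + 2 * d + 1 with hD
  have hD0 : 0 < D := by positivity
  have hKr : ((K : ℕ) : ℝ) = 2 * d * (d + 2) + 1 := by rw [hK]; push_cast; ring
  have hKpos : (0 : ℝ) < (K : ℝ) := by rw [hKr]; positivity
  set θ : ℝ := 1 / (D * (p + K)) with hθ
  have hθ0 : 0 < θ := by positivity
  have hkap : kap d p = p * θ := by
    unfold kap
    rw [hθ, ← hKr, ← hD]
    ring
  set lam : ℝ := (1 + G) * ℓ ^ θ with hlam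
  have hℓθ : 1 ≤ ℓ ^ θ := Real.one_le_rpow hℓ1 hθ0.le
  have hlam1 : 1 ≤ lam := by rw [hlam]; nlinarith
  have hlam0 : 0 < lam := by linarith
  -- good part
  have hgood := hs {i // ¬ lam < g i} (fun i => e i.1) (fun i => a i.1) (2 * lam) δ
    (by positivity) hδ hδ1 (fun i => he i.1) (fun i j hij => hsep i.1 j.1 (fun h => hij (Subtype.ext h)))
    (fun i j => by
      refine (hhaj i.1 j.1).trans ?_
      gcongr
      have h1 := not_lt.1 i.2
      have h2 := not_lt.1 j.2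
      linarith)
  have hbad := trivial_bound (ι := {i // lam < g i}) (e := fun i => e i.1) (a := fun i => a i.1)
    hδ hδ1 (fun i => he i.1) (fun i j hij => hsep i.1 j.1 (fun h => hij (Subtype.ext h)))
  set Y : ℝ := (1 + G) ^ K * ℓ ^ (1 - kap d p) with hY
  have hYpos : 0 < Y := by positivity
  have hg2 : C1 * (1 + 2 * lam) ^ K * ℓ ^ (1 - 1 / D) ≤ C1 * 3 ^ K * Y := by
    have h1 : (1 + 2 * lam) ^ K ≤ (3 * lam) ^ K := by
      gcongr
      linarith
    have h2 : (3 * lam) ^ K = 3 ^ K * ((1 + G) ^ K * ℓ ^ (θ * K)) := by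
      rw [mul_pow, hlam, mul_pow, ← Real.rpow_natCast (ℓ ^ θ) K, ← Real.rpow_mul hℓ0.le]
    have h3 : ℓ ^ (θ * K) * ℓ ^ (1 - 1 / D) = ℓ ^ (1 - kap d p) := by
      rw [← Real.rpow_add hℓ0]
      congr 1
      rw [hkap, hθ]
      field_simp
      ring
    calc C1 * (1 + 2 * lam) ^ K * ℓ ^ (1 - 1 / D)
        ≤ C1 * (3 ^ K * ((1 + G) ^ K * ℓ ^ (θ * K))) * ℓ ^ (1 - 1 / D) := by
          rw [← h2]
          gcongr
      _ = C1 * 3 ^ K * ((1 + G) ^ K * (ℓ ^ (θ * K) * ℓ ^ (1 - 1 / D))) := by ring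
      _ = C1 * 3 ^ K * Y := by rw [h3, hY]
  have hb2 : (2 * (d : ℝ) + 3) * ℓ * (2 ^ d * (δ ^ d * Fintype.card {i // lam < g i})) ≤
      (2 * d + 3) * 2 ^ d * Y := by
    have h1 := hweak lam hlam0
    have h2 : (G / lam) ^ p ≤ ℓ ^ (-(kap d p)) := by
      have h3 : G / lam ≤ ℓ ^ (-θ) := by
        rw [Real.rpow_neg hℓ0.le, hlam, div_le_iff₀ (by positivity)]
        have : (ℓ ^ θ)⁻¹ * ((1 + G) * ℓ ^ θ) = 1 + G := by
          have := (Real.rpow_pos_of_pos hℓ0 θ).ne'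
          field_simp
        rw [this]
        linarith
      calc (G / lam) ^ p ≤ (ℓ ^ (-θ)) ^ p := Real.rpow_le_rpow (by positivity) h3 hp.le
        _ = ℓ ^ (-(kap d p)) := by
          rw [← Real.rpow_mul hℓ0.le, hkap]
          congr 1
          ring
    have h4 : ℓ * ℓ ^ (-(kap d p)) = ℓ ^ (1 - kap d p) := by
      nth_rewrite 1 [← Real.rpow_one ℓ]
      rw [← Real.rpow_add hℓ0]
      congr 1
    have h5 : (1 : ℝ) ≤ (1 + G) ^ K := one_le_pow₀ (by linarith)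
    calc (2 * (d : ℝ) + 3) * ℓ * (2 ^ d * (δ ^ d * Fintype.card {i // lam < g i}))
        ≤ (2 * (d : ℝ) + 3) * ℓ * (2 ^ d * ℓ ^ (-(kap d p))) := by
          gcongr
          exact h1.trans h2
      _ = (2 * d + 3) * 2 ^ d * (1 * (ℓ * ℓ ^ (-(kap d p)))) := by ring
      _ ≤ (2 * d + 3) * 2 ^ d * ((1 + G) ^ K * (ℓ * ℓ ^ (-(kap d p)))) := by gcongr
      _ = _ := by rw [h4, hY]
  calc ∫⁻ y, ENNReal.ofReal (Ph (Nt e a δ y))
      ≤ ∫⁻ y, 4 * (ENNReal.ofReal (Ph (Nt (fun i : {i // ¬ lam < g i} => e i.1) (fun i => a i.1) δ y)) +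
          ENNReal.ofReal (Ph (Nt (fun i : {i // lam < g i} => e i.1) (fun i => a i.1) δ y))) := by
        refine lintegral_mono fun y => ?_
        have h1 := Nt_nonneg (fun i : {i // ¬ lam < g i} => e i.1) (fun i => a i.1) δ y
        have h2 := Nt_nonneg (fun i : {i // lam < g i} => e i.1) (fun i => a i.1) δ y
        rw [← ENNReal.ofReal_add (Ph_nonneg h1) (Ph_nonneg h2),
          show (4 : ℝ≥0∞) = ENNReal.ofReal 4 by simp, ← ENNReal.ofReal_mul (by norm_num)]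
        apply ENNReal.ofReal_le_ofReal
        rw [Nt_split e a δ (fun i => lam < g i) y, add_comm]
        exact Ph_add_le h1 h2
    _ = 4 * ((∫⁻ y, ENNReal.ofReal (Ph (Nt (fun i : {i // ¬ lam < g i} => e i.1)
          (fun i => a i.1) δ y))) +
          ∫⁻ y, ENNReal.ofReal (Ph (Nt (fun i : {i // lam < g i} => e i.1) (fun i => a i.1) δ y))) := by
        rw [lintegral_const_mul' _ _ (by norm_num), lintegral_add_left]
        exact (Ph_meas.comp (Nt_meas (fun i : {i // ¬ lam < g i} => e i.1)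
          (fun i => a i.1) δ)).ennreal_ofReal
    _ ≤ 4 * (ENNReal.ofReal (C1 * 3 ^ K * Y) + ENNReal.ofReal ((2 * d + 3) * 2 ^ d * Y)) := by
        gcongr
        · exact hgood.trans (ENNReal.ofReal_le_ofReal hg2)
        · exact hbad.trans (ENNReal.ofReal_le_ofReal hb2)
    _ = ENNReal.ofReal (4 * (C1 * 3 ^ K + (2 * d + 3) * 2 ^ d) * Y) := by
        rw [← ENNReal.ofReal_add (by positivity) (by positivity),
          show (4 : ℝ≥0∞) = ENNReal.ofReal 4 by simp, ← ENNReal.ofReal_mul (by norm_num)]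
        congr 1
        ring

open Classical in
/-- **Sets.** -/
theorem main_level (hd : 1 ≤ d) : ∃ C : ℝ, 0 < C ∧ ∀ (ι : Type) [Fintype ι]
    (e a : ι → Eu d) (g : ι → ℝ) (p G δ : ℝ), 0 < p → 0 ≤ G → 0 < δ → δ ≤ 1 →
    (∀ i, ‖e i‖ = 1) → (∀ i j, i ≠ j → δ ≤ ‖e i - e j‖) →
    (∀ i j, ‖a i - a j‖ ≤ (g i + g j) * ‖e i - e j‖) →
    (∀ l : ℝ, 0 < l → δ ^ d * Fintype.card {i // l < g i} ≤ (G / l) ^ p) →
    ∀ (γ : ℝ) (E : Set (Eu d)), 0 < γ →
    ENNReal.ofReal γ ≤ ∑ i, volume (tube δ (e i) (a i) ∩ E) →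
    ENNReal.ofReal (Real.exp (-(C / γ * ((1 + G) ^ (2 * d * (d + 2) + 1) *
        (1 + Real.log (1 / δ)) ^ (1 - kap d p))))) ≤ volume E := by
  obtain ⟨C1, hC1, hs⟩ := main hd
  refine ⟨2 * C1 + 2, by positivity, ?_⟩
  intro ι _ e a g p G δ hp hG hδ hδ1 he hsep hhaj hweak γ E hγ hint
  have hlogδ : 0 ≤ Real.log (1 / δ) := Real.log_nonneg (by rw [le_div_iff₀ hδ]; linarith)
  have hkap1 : kap d p ≤ 1 := by
    unfold kap
    rw [div_le_one (by positivity)]
    nlinarith [show (0 : ℝ) ≤ d by positivity, mul_nonneg (show (0 : ℝ) ≤ d by positivity) hp.le,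
      mul_nonneg (show (0 : ℝ) ≤ (d : ℝ) ^ 2 by positivity) hp.le,
      show (0 : ℝ) ≤ (2 * (d : ℝ) ^ 2 + 2 * d + 1) * (2 * d * (d + 2) + 1) by positivity]
  set Y : ℝ := (1 + G) ^ (2 * d * (d + 2) + 1) * (1 + Real.log (1 / δ)) ^ (1 - kap d p) with hY
  have hY1 : 1 ≤ Y := by
    have h1 : (1 : ℝ) ≤ (1 + G) ^ (2 * d * (d + 2) + 1) := one_le_pow₀ (by linarith)
    have h2 : 1 ≤ (1 + Real.log (1 / δ)) ^ (1 - kap d p) :=
      Real.one_le_rpow (by linarith) (by linarith)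
    nlinarith
  have h1 := hs ι e a g p G δ hp hG hδ hδ1 he hsep hhaj hweak
  have h2 := level_gen (by positivity : 0 < C1 * Y) hγ h1 (E := E) (by
    refine hint.trans (le_of_eq ?_)
    have h3 : ∀ y, ENNReal.ofReal (Nt e a δ y) =
        ∑ i, (tube δ (e i) (a i)).indicator (fun _ => (1 : ℝ≥0∞)) y := by
      intro y
      unfold Nt
      rw [ENNReal.ofReal_sum_of_nonneg fun i _ => Set.indicator_nonneg (fun _ _ => zero_le_one) _]
      refine Finset.sum_congr rfl fun i _ => ?_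
      by_cases hy : y ∈ tube δ (e i) (a i)
      · rw [Set.indicator_of_mem hy, Set.indicator_of_mem hy, ENNReal.ofReal_one]
      · rw [Set.indicator_of_notMem hy, Set.indicator_of_notMem hy, ENNReal.ofReal_zero]
    simp_rw [h3]
    rw [lintegral_finsetSum _ fun i _ =>
      measurable_const.indicator (isClosed_tube δ (e i) (a i)).measurableSet]
    refine Finset.sum_congr rfl fun i _ => ?_
    rw [lintegral_indicator (isClosed_tube δ (e i) (a i)).measurableSet,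
      Measure.restrict_restrict (isClosed_tube δ (e i) (a i)).measurableSet, setLIntegral_const,
      one_mul])
  refine le_trans (ENNReal.ofReal_le_ofReal (Real.exp_le_exp.2 (neg_le_neg ?_))) h2
  have h4 : (2 * C1 + 2) / γ * Y = ((2 * C1 + 2) * Y) / γ := by ring
  rw [h4]
  gcongr
  nlinarith

end Pool.Agent.Q184.SF
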